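import Pool.Agent.Y294.TB.Stm

/-!
Project TB: the initial direction has positive rank over the field of the initial vertex, and a
vertex that does not move with the initial direction is algebraic over that field.
-/

set_option autoImplicit false

open Set
open scoped InnerProductSpace

namespace Pool.Agent.Y961.TB

open Pool.Agent.H721R2.Quart Pool.Agent.H721R2.Ivrii
open Pool.Agent.TH746 Pool.Agent.TH746.AL MvPolynomial H450Al H450Sp
open Pool.Agent.Y294.TB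

section der

variable {Z₁ Z₂ F : Type*} [NormedAddCommGroup Z₁] [NormedSpace ℝ Z₁] [NormedAddCommGroup Z₂]
  [NormedSpace ℝ Z₂] [NormedAddCommGroup F] [NormedSpace ℝ F]

theorem fderiv_fst_zero {f : Z₁ × Z₂ → F} {Y : Z₂ → F} (h : f = fun z => Y z.2) {z : Z₁ × Z₂}
    (hd : DifferentiableAt ℝ f z) (ζ : Z₁) : fderiv ℝ f z (ζ, 0) = 0 := by
  rw [← hd.lineDeriv_eq_fderiv]
  unfold lineDeriv
  have : (fun t : ℝ => f (z + t • (ζ, (0 : Z₂)))) = fun _ => f z := by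
    funext t
    rw [h]
    simp
  rw [this]
  simp

theorem fderiv_snd_zero {f : Z₁ × Z₂ → F} {X : Z₁ → F} (h : f = fun z => X z.1) {z : Z₁ × Z₂}
    (hd : DifferentiableAt ℝ f z) (ζ : Z₂) : fderiv ℝ f z (0, ζ) = 0 := by
  rw [← hd.lineDeriv_eq_fderiv]
  unfold lineDeriv
  have : (fun t : ℝ => f (z + t • ((0 : Z₁), ζ))) = fun _ => f z := by
    funext t
    rw [h]
    simp
  rw [this]
  simp

theorem fderiv_ofLp {Z : Type*} [NormedAddCommGroup Z] [NormedSpace ℝ Z] {f : Z → EE 0} {z : Z}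
    (hf : DifferentiableAt ℝ f z) (l : Fin 2) (ζ : Z) :
    fderiv ℝ (fun z => (f z).ofLp l) z ζ = (fderiv ℝ f z ζ).ofLp l := by
  have h1 : HasFDerivAt (fun z => (f z).ofLp l)
      ((EuclideanSpace.proj l : EuclideanSpace ℝ (Fin 2) →L[ℝ] ℝ).comp (fderiv ℝ f z)) z :=
    (EuclideanSpace.proj l : EuclideanSpace ℝ (Fin 2) →L[ℝ] ℝ).hasFDerivAt.comp z hf.hasFDerivAt
  rw [h1.fderiv]
  rfl

end der

theorem exists_perp (e : EE 0) (he : ⟪e, e⟫_ℝ = 1) : ∃ δ : EE 0, δ ≠ 0 ∧ ⟪e, δ⟫_ℝ = 0 := by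
  have h1 : ∀ a b : EE 0, ⟪a, b⟫_ℝ = a.ofLp 0 * b.ofLp 0 + a.ofLp 1 * b.ofLp 1 := by
    intro a b
    have : ⟪a, b⟫_ℝ = ∑ i : Fin 2, b.ofLp i * a.ofLp i := rfl
    rw [this, Fin.sum_univ_two]
    ring
  refine ⟨(WithLp.toLp 2 (fun i : Fin 2 => if i = 0 then -(e.ofLp 1) else e.ofLp 0)), ?_, ?_⟩
  · intro h
    have h2 : ∀ i : Fin 2, (if i = 0 then -(e.ofLp 1) else e.ofLp 0) = 0 := fun i =>
      congrFun (congrArg WithLp.ofLp h) i
    have h3 := h2 0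
    have h4 := h2 1
    rw [if_pos rfl] at h3
    rw [if_neg (by decide)] at h4
    rw [h1, h4, neg_eq_zero.1 h3] at he
    norm_num at he
  · rw [h1]
    show e.ofLp 0 * (if (0 : Fin 2) = 0 then -(e.ofLp 1) else e.ofLp 0) +
      e.ofLp 1 * (if (1 : Fin 2) = 0 then -(e.ofLp 1) else e.ofLp 0) = 0
    rw [if_pos rfl, if_neg (by decide)]
    ring

section key

variable {Z₁ Z₂ : Type} [NormedAddCommGroup Z₁] [NormedSpace ℝ Z₁] [NormedAddCommGroup Z₂]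
  [NormedSpace ℝ Z₂] (C : Chn (EE 0) (Z₁ × Z₂)) {z : Z₁ × Z₂}

/-- the initial direction moves while the initial vertex is fixed -/
theorem key_dir (hs : Split C) (hz : z ∈ C.U) :
    ∃ ζ : Z₂, fderiv ℝ (C.e 0) z (0, ζ) ≠ 0 ∧ fderiv ℝ (C.x 0) z (0, ζ) = 0 ∧
      fderiv ℝ (C.n 0) z (0, ζ) = 0 := by
  obtain ⟨X, hX⟩ := hs.x0
  obtain ⟨ν, hν⟩ := hs.n0
  obtain ⟨Y, hY⟩ := hs.e0
  obtain ⟨δ, hδ0, hδ⟩ := exists_perp (C.e 0 z) (C.ee 0 C.hN z hz)
  obtain ⟨ζ, -, h2⟩ := C.surj z hz 0 δ (inner_zero_right _) hδ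
  refine ⟨ζ.2, ?_, fderiv_snd_zero hX (C.dx 0 (Nat.zero_le _) z hz) _,
    fderiv_snd_zero hν (C.dn 0 (Nat.zero_le _) z hz) _⟩
  have h3 : ζ = (ζ.1, 0) + (0, ζ.2) := by simp
  rw [h3, map_add, fderiv_fst_zero hY (C.de 0 (Nat.zero_le _) z hz), zero_add] at h2
  rw [h2]
  exact hδ0

/-- the variables of the initial vertex -/
def S0 : Set (Fin 3 × Fin (C.N + 1) × Fin 2) := {l | (l.1 = 0 ∨ l.1 = 2) ∧ l.2.1 = 0}

theorem vv_x (i : Fin (C.N + 1)) (l : Fin 2) : vv C (0, i, l) = fun z => (C.x i z).ofLp l := by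
  funext z
  simp [vv]

theorem vv_e (i : Fin (C.N + 1)) (l : Fin 2) : vv C (1, i, l) = fun z => (C.e i z).ofLp l := by
  funext z
  simp [vv]

theorem vv_n (i : Fin (C.N + 1)) (l : Fin 2) : vv C (2, i, l) = fun z => (C.n i z).ofLp l := by
  funext z
  simp [vv]

theorem sub_S0 (z : Z₁ × Z₂) : (range (C.x 0 z).ofLp ∪ range (C.n 0 z).ofLp) ⊆
    (fun l => vv C l z) '' S0 C := by
  rintro _ (⟨l, rfl⟩ | ⟨l, rfl⟩)
  · refine ⟨(0, 0, l), ⟨Or.inl rfl, rfl⟩, ?_⟩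
    show vv C (0, 0, l) z = _
    rw [vv_x]
    rfl
  · refine ⟨(2, 0, l), ⟨Or.inr rfl, rfl⟩, ?_⟩
    show vv C (2, 0, l) z = _
    rw [vv_n]
    rfl

theorem der_S0 (hz : z ∈ C.U) {ζ : Z₂} (hx : fderiv ℝ (C.x 0) z (0, ζ) = 0)
    (hn : fderiv ℝ (C.n 0) z (0, ζ) = 0) : ∀ l ∈ S0 C, fderiv ℝ (vv C l) z (0, ζ) = 0 := by
  rintro ⟨a, i, l⟩ ⟨ha, hi⟩
  simp only at ha hi
  subst hi
  rcases ha with rfl | rfl
  · rw [vv_x]
    have h1 := fderiv_ofLp (C.dx 0 (Nat.zero_le _) z hz) l ((0 : Z₁), ζ)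
    rw [hx] at h1
    exact h1
  · rw [vv_n]
    have h1 := fderiv_ofLp (C.dn 0 (Nat.zero_le _) z hz) l ((0 : Z₁), ζ)
    rw [hn] at h1
    exact h1

theorem der_e (hz : z ∈ C.U) {ζ : Z₂} (h : ∀ l, fderiv ℝ (vv C (1, 0, l)) z (0, ζ) = 0) :
    fderiv ℝ (C.e 0) z (0, ζ) = 0 := by
  ext l
  have h1 := fderiv_ofLp (C.de 0 (Nat.zero_le _) z hz) l ((0 : Z₁), ζ)
  have h2 := h l
  rw [vv_e] at h2
  rw [← h1]
  exact h2

end key

section rank

theorem mem_cl_of_rk {k : Type*} [Field k] [Algebra k ℝ] {S : Set ℝ} (h : rk k S < 1) {a : ℝ}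
    (ha : a ∈ S) : a ∈ cl k ∅ := by
  by_contra hcon
  have h1 := rk_insert_eq k ∅ a hcon
  have h2 : rk k (insert a ∅) ≤ rk k S := rk_mono' k (by
    intro b hb
    rcases hb with rfl | hb
    · exact ha
    · exact hb.elim)
  rw [h1] at h2
  exact absurd (lt_of_le_of_lt (le_trans le_add_self h2) h) (lt_irrefl _)

/-- exchange -/
theorem mem_cl_exchange {k : Type*} [Field k] [Algebra k ℝ] {S : Set ℝ} (h : rk k S ≤ 1) {a b : ℝ}
    (ha : a ∈ S) (hb : b ∈ cl k S) (hb0 : b ∉ cl k ∅) : a ∈ cl k {b} := by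
  by_contra hcon
  have h1 := rk_insert_eq k {b} a hcon
  have h2 : rk k (insert b ∅) = rk k ∅ + 1 := rk_insert_eq k ∅ b hb0
  have h3 : rk k (insert a {b}) ≤ rk k S := rk_mono k (by
    intro c hc
    rcases hc with rfl | hc
    · exact subset_cl k S ha
    · rw [mem_singleton_iff] at hc
      rw [hc]
      exact hb)
  rw [insert_empty_eq] at h2
  rw [h1, h2] at h3
  have h4 := h3.trans h
  have h5 : (1 : ℕ∞) + 1 ≤ 1 := le_trans (by gcongr; exact le_add_self) h4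
  exact absurd h5 (by decide)

theorem rk_unit {k : Type*} [Field k] [Algebra k ℝ] (e : Fin 2 → ℝ) (he : ∑ i, e i ^ 2 = 1) :
    rk k (range e) ≤ 1 := by
  have h1 : (X 0 ^ 2 + X 1 ^ 2 - 1 : MvPolynomial (Fin 2) k) ≠ 0 := by
    intro h
    have h2 := congrArg (fun P => eval (fun _ => (0 : k)) P) h
    simp at h2
  exact rk_lt_of_relation k e _ h1 (by
    rw [Fin.sum_univ_two] at he
    simp [he])

end rank

theorem pt3 (_ : S_SURJ) (h2 : S_DEP) : S_PT3 := by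
  intro Z₁ Z₂ _ _ _ _ C k _ _ z hz hs hg
  by_contra hcon
  rw [not_le] at hcon
  obtain ⟨ζ, h3, h4, h5⟩ := key_dir C hs hz
  apply h3
  apply der_e C hz
  intro l
  refine h2 _ k _ (vv C) z hg (S0 C) (1, 0, l) (0, ζ) ?_ (der_S0 C hz h4 h5)
  have h6 := mem_cl_of_rk hcon (mem_range_self l)
  rw [← cl_union, union_empty] at h6
  have h7 := cl_mono k (sub_S0 C z) h6
  rw [vv_e]
  exact h7

theorem pt4 (_ : S_SURJ) (h2 : S_DEP) : S_PT4 := by
  intro Z₁ Z₂ _ _ _ _ C k _ _ z hz hs hg j hj hx hcl i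
  obtain ⟨ζ, h3, h4, h5⟩ := key_dir C hs hz
  by_contra hcon
  rw [IntermediateField.isAlgebraic_adjoin_iff, ← mem_cl, ← union_empty (range _ ∪ range _),
    cl_union] at hcon
  have h6 := hcl i
  rw [cl_union] at h6
  apply h3
  apply der_e C hz
  intro l
  obtain ⟨j', hj'⟩ : ∃ j' : Fin (C.N + 1), (j' : ℕ) = j := ⟨⟨j, by omega⟩, rfl⟩
  refine h2 _ k _ (vv C) z hg (S0 C ∪ {(0, j', i)}) (1, 0, l) (0, ζ) ?_ ?_
  · have hu : ∑ i, (C.e 0 z).ofLp i ^ 2 = 1 := by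
      have h7 := C.ee 0 C.hN z hz
      rw [← h7]
      have : ⟪C.e 0 z, C.e 0 z⟫_ℝ = ∑ i : Fin 2, (C.e 0 z).ofLp i * (C.e 0 z).ofLp i := rfl
      rw [this]
      exact Finset.sum_congr rfl fun i _ => by ring
    have h7 := mem_cl_exchange (rk_unit _ hu) (mem_range_self l) h6 hcon
    rw [← cl_union] at h7
    rw [vv_e]
    refine cl_mono k ?_ h7
    rw [image_union]
    refine union_subset_union (sub_S0 C z) ?_
    rw [image_singleton, vv_x, hj']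
  · rintro m (hm | hm)
    · exact der_S0 C hz h4 h5 m hm
    · rw [mem_singleton_iff] at hm
      rw [hm, vv_x]
      have h8 := fderiv_ofLp (C.dx j hj.le z hz) i ((0 : Z₁), ζ)
      rw [hx ζ] at h8
      rw [hj']
      exact h8

end Pool.Agent.Y961.TB
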